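import Pool.Agent.W558.WD.Stms

set_option autoImplicit false

universe u

namespace Pool.Agent.W411.WD

open TensorProduct IntermediateField

theorem derp0 (p : ℕ) [Fact p.Prime] (k E : Type u) [Field k] [Field E] [Algebra k E]
    [CharP k p] (D : Derivation k E E) : ∃ D' : Derivation k E E, ∀ a, D' a = D^[p] a := by
  classical
  let L : Module.End k E := (D : E →ₗ[k] E)
  have hL : ∀ (n : ℕ) (a : E), (L ^ n) a = D^[n] a := by
    intro n a
    rw [Module.End.pow_apply]
    rfl
  let T1 : Module.End k (E ⊗[k] E) := LinearMap.rTensor E L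
  let T2 : Module.End k (E ⊗[k] E) := LinearMap.lTensor E L
  have hc : Commute T1 T2 := by
    show T1 * T2 = T2 * T1
    show T1 ∘ₗ T2 = T2 ∘ₗ T1
    rw [LinearMap.rTensor_comp_lTensor, LinearMap.lTensor_comp_rTensor]
  have : CharP (Module.End k (E ⊗[k] E)) p :=
    charP_of_injective_algebraMap
      (FaithfulSMul.algebraMap_injective k (Module.End k (E ⊗[k] E))) p
  have hp2 : (T1 + T2) ^ p = T1 ^ p + T2 ^ p := add_pow_char_of_commute p hc
  have h1 : ∀ t : E ⊗[k] E, L (LinearMap.mul' k E t) = LinearMap.mul' k E ((T1 + T2) t) := by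
    intro t
    induction t with
    | zero => simp
    | add x y hx hy => rw [map_add, map_add, hx, hy, map_add, map_add]
    | tmul a b =>
      simp only [T1, T2, LinearMap.add_apply, LinearMap.rTensor_tmul, LinearMap.lTensor_tmul,
        map_add, LinearMap.mul'_apply]
      show D (a * b) = D a * b + a * D b
      rw [D.leibniz, smul_eq_mul, smul_eq_mul]
      ring
  have h2 : ∀ (n : ℕ) (t : E ⊗[k] E),
      (L ^ n) (LinearMap.mul' k E t) = LinearMap.mul' k E (((T1 + T2) ^ n) t) := by
    intro n
    induction n with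
    | zero => intro t; rfl
    | succ n ih =>
      intro t
      rw [pow_succ, Module.End.mul_apply, h1, ih, pow_succ, Module.End.mul_apply]
  have h3 : ∀ a b : E, (L ^ p) (a * b) = a • (L ^ p) b + b • (L ^ p) a := by
    intro a b
    have h := h2 p (a ⊗ₜ b)
    have e1 : T1 ^ p = LinearMap.rTensor E (L ^ p) := LinearMap.rTensor_pow L p
    have e2 : T2 ^ p = LinearMap.lTensor E (L ^ p) := LinearMap.lTensor_pow L p
    rw [hp2, LinearMap.add_apply, e1, e2, LinearMap.rTensor_tmul, LinearMap.lTensor_tmul, map_add, LinearMap.mul'_apply,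
      LinearMap.mul'_apply, LinearMap.mul'_apply] at h
    rw [h, smul_eq_mul, smul_eq_mul]
    ring
  exact ⟨Derivation.mk' (L ^ p) h3, fun a => hL p a⟩

theorem ker0 (p : ℕ) [Fact p.Prime] (k E : Type u) [Field k] [Field E] [Algebra k E]
    [PerfectField k] [CharP k p] [Algebra.EssFiniteType k E] (z : E)
    (hz : ∀ D : Derivation k E E, D z = 0) : ∃ w, w ^ p = z := by
  classical
  by_contra hne
  push Not at hne
  have : CharP E p := charP_of_injective_algebraMap (algebraMap k E).injective p
  let F0 : IntermediateField k E :=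
    { carrier := {x | ∃ w, w ^ p = x}
      mul_mem' := by
        rintro _ _ ⟨a, rfl⟩ ⟨b, rfl⟩
        exact ⟨a * b, mul_pow a b p⟩
      add_mem' := by
        rintro _ _ ⟨a, rfl⟩ ⟨b, rfl⟩
        exact ⟨a + b, add_pow_char a b p⟩
      algebraMap_mem' := by
        intro c
        obtain ⟨d, hd⟩ := surjective_frobenius k p c
        refine ⟨algebraMap k E d, ?_⟩
        rw [← map_pow]
        congr 1
      inv_mem' := by
        rintro _ ⟨a, rfl⟩
        exact ⟨a⁻¹, inv_pow a p⟩ }
  let S : Set (IntermediateField k E) := {M | (∀ w : E, w ^ p ∈ M) ∧ z ∉ M}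
  have hF0 : F0 ∈ S := ⟨fun w => ⟨w, rfl⟩, fun ⟨w, hw⟩ => hne w hw⟩
  obtain ⟨M, -, hM⟩ := zorn_le_nonempty₀ S (by
    intro c hc hch y hy
    refine ⟨sSup c, ⟨fun w => ?_, fun h => ?_⟩, fun N hN => le_sSup hN⟩
    · exact le_sSup hy ((hc hy).1 w)
    · have : Nonempty c := ⟨⟨y, hy⟩⟩
      rw [sSup_eq_iSup', ← SetLike.mem_coe,
        IntermediateField.coe_iSup_of_directed (hch.directed)] at h
      obtain ⟨N, hN⟩ := Set.mem_iUnion.1 h
      exact (hc N.2).2 hN) F0 hF0
  have hMp : ∀ w : E, w ^ p ∈ M := hM.prop.1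
  have hMz : z ∉ M := hM.prop.2
  have hpp : p.Prime := Fact.out
  -- degrees
  have hdeg : ∀ w : E, w ∉ M → Module.finrank M M⟮w⟯ = p := by
    intro w hw
    have hir : Irreducible (Polynomial.X ^ p - Polynomial.C (⟨w ^ p, hMp w⟩ : M)) := by
      apply X_pow_sub_C_irreducible_of_prime hpp
      intro b hb
      have h1 : (b : E) ^ p = w ^ p := by
        have := congrArg (algebraMap M E) hb
        simpa using this
      have h2 : (b : E) = w := frobenius_inj E p h1
      exact hw (h2 ▸ b.2)
    have hmon : (Polynomial.X ^ p - Polynomial.C (⟨w ^ p, hMp w⟩ : M)).Monic :=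
      Polynomial.monic_X_pow_sub_C _ hpp.ne_zero
    have hroot : Polynomial.aeval w (Polynomial.X ^ p - Polynomial.C (⟨w ^ p, hMp w⟩ : M)) = 0 := by
      simp
    have hmin := minpoly.eq_of_irreducible_of_monic hir hroot hmon
    have hint : IsIntegral M w := ⟨_, hmon, hroot⟩
    rw [IntermediateField.adjoin.finrank hint, ← hmin, Polynomial.natDegree_X_pow_sub_C]
  have hfd : ∀ w : E, FiniteDimensional M M⟮w⟯ := by
    intro w
    apply IntermediateField.adjoin.finiteDimensional
    refine ⟨Polynomial.X ^ p - Polynomial.C (⟨w ^ p, hMp w⟩ : M),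
      Polynomial.monic_X_pow_sub_C _ hpp.ne_zero, by simp⟩
  have hgen : ∀ w : E, w ∈ M⟮z⟯ := by
    intro w
    by_cases hw : w ∈ M
    · exact (M⟮z⟯).algebraMap_mem ⟨w, hw⟩
    · have hzw : z ∈ M⟮w⟯ := by
        by_contra h
        have hmem : (M⟮w⟯).restrictScalars k ∈ S := by
          refine ⟨fun x => ?_, h⟩
          exact (M⟮w⟯).algebraMap_mem ⟨x ^ p, hMp x⟩
        have hle : M ≤ (M⟮w⟯).restrictScalars k := fun x hx => (M⟮w⟯).algebraMap_mem ⟨x, hx⟩
        have := hM.le_of_ge hmem hle
        exact hw (this (IntermediateField.mem_adjoin_simple_self M w))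
      have hle : M⟮z⟯ ≤ M⟮w⟯ := by
        rw [IntermediateField.adjoin_simple_le_iff]
        exact hzw
      have := hfd w
      have heq : M⟮z⟯ = M⟮w⟯ :=
        IntermediateField.eq_of_le_of_finrank_eq hle (by rw [hdeg z hMz, hdeg w hw])
      rw [heq]
      exact IntermediateField.mem_adjoin_simple_self M w
  -- there are no derivations over M
  have hder : ∀ D : Derivation M E E, D = 0 := by
    intro D
    have hDz : D z = 0 := hz (D.restrictScalars k)
    ext w
    have hw := hgen w
    have hint : IsIntegral M z := ⟨Polynomial.X ^ p - Polynomial.C (⟨z ^ p, hMp z⟩ : M),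
      Polynomial.monic_X_pow_sub_C _ hpp.ne_zero, by simp⟩
    rw [IntermediateField.mem_adjoin_simple_iff] at hw
    obtain ⟨r, s, rfl⟩ := hw
    have h1 : ∀ r : Polynomial M, D (Polynomial.aeval z r) = 0 := by
      intro r
      rw [Derivation.map_aeval, hDz, smul_zero]
    rw [Derivation.leibniz_div, h1, h1]
    simp
  have : Algebra.EssFiniteType M E := Algebra.EssFiniteType.of_comp k M E
  have : Subsingleton (Ω[E⁄M]) := by
    constructor
    intro a b
    rw [← sub_eq_zero, ← Module.forall_dual_apply_eq_zero_iff E (a - b)]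
    intro f
    have hf : f = 0 := by
      apply (KaehlerDifferential.linearMapEquivDerivation M E).injective
      rw [hder (KaehlerDifferential.linearMapEquivDerivation M E f), map_zero]
    rw [hf]
    rfl
  have : Algebra.FormallyUnramified M E := ⟨inferInstance⟩
  have : Algebra.IsSeparable M E := Algebra.FormallyUnramified.isSeparable M E
  have : CharP M p := charP_of_injective_algebraMap (algebraMap k M).injective p
  have : IsPurelyInseparable M E := by
    rw [isPurelyInseparable_iff_pow_mem M p]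
    intro x
    exact ⟨1, ⟨⟨x ^ p, hMp x⟩, by simp⟩⟩
  obtain ⟨y, hy⟩ := IsPurelyInseparable.surjective_algebraMap_of_isSeparable M E z
  exact hMz (hy ▸ y.2)

theorem derp : Pool.Agent.W558.WD_derp.{u} := by
  intro p _ k E _ _ _ _ D
  exact derp0 p k E D

theorem ker : Pool.Agent.W558.WD_ker.{u} := by
  intro p _ k E _ _ _ _ _ _ z hz
  exact ker0 p k E z hz

end Pool.Agent.W411.WD
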